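import Mathlib
import Pool.Agent.Lib.MP_dd2c10_pr.Defs
import Pool.Agent.Lib.MP_dd2c10_pr.Example
import Pool.Agent.Lib.MP_dd2c10_prF.Fin

/-!
# The ergodicity classes of the BFACF algorithm in the slab of width one

The classes of polygons of the slab `0 ≤ z ≤ 1` are exactly the classes of knot diagrams in the plane modulo planar
isotopy and the Reidemeister moves I and II (there is no Reidemeister move III).

## Diagrams

A diagram in general position is drawn from left to right and is a word in the elementary pieces `Gen`: `cup i` (two
strands with the numbers `i`, `i + 1`, counted from below starting with `0`, are born), `cap i` (the strands `i`,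
`i + 1` end) and `cross i b` (the strands `i`, `i + 1` cross; the strand which goes up passes over the other one if
and only if `b` is `true`). `Valid 0 w` and `endk 0 w = 0` say that the word `w` makes sense, starting with no strands, and
ends with no strands. `OneComp w` says that the closed curve drawn by `w` has exactly one component: `w` is not empty and
each colouring of its strands by two colours, which is constant along strands, is constant. `KnotDiagram w` is the
conjunction of the three.

`DiagEq v w` is the equivalence relation generated by the local moves `Rule`: distant pieces change places (`far`), a
curve with a maximum and a minimum is straightened (`zig`, `zag`), a crossing slides through the extremal point of a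
cup or a cap (`slideCup`, `slideCap`); these moves generate planar isotopy of diagrams in general position; and the Reidemeister
moves I (`r1`, `r1'`) and II (`r2`).

## The diagram of a polygon

`IsDiagram w P` says that `w` is the diagram of the polygon `P` which is read off from `P` by the projection of the slab to the
plane along a direction close to the vertical one: the point `(x, y, z)` is drawn at the abscissa `x` and the height
`y + z / 2` (its number is `2 y + z`). The edges in the planes `x = c` (ladder edges) are listed column after column, from
left to right, in an arbitrary order within a column (`Rdg`), and each one is drawn as the piece which it produces (`out`, `scan`):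
it joins the vertices with the numbers `a` and `b` of the ladder; a strand is born there (a cup) if no strand passes through its
ends, it ends there (a cap) if strands pass through both ends, and one strand moves from one end to the other otherwise; if a strand
passes through the vertex between the ends there is in addition a crossing with this strand, and over/under is
determined by the coordinate `z`.
-/

namespace Pool.Agent.Results.MP_dd2c10_pr.Classification

open Pool.Agent.Lib.MP_dd2c10_pr Pool.Agent.Lib.MP_dd2c10_prF

/-- Every polygon of the slab of width one has a diagram; its diagrams are knot diagrams; every knot diagram is a
diagram of a polygon; two polygons are in the same ergodicity class if and only if their diagrams are related by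
planar isotopy and the Reidemeister moves I and II. In particular (last part) the knot type does not determine the class. -/
theorem result :
    (∀ P : Set (Sym2 Pt), IsPolygon 1 P → ∃ w, IsDiagram w P) ∧
    (∀ (P : Set (Sym2 Pt)) (w : List Gen), IsPolygon 1 P → IsDiagram w P → KnotDiagram w) ∧
    (∀ w : List Gen, KnotDiagram w → ∃ P : Set (Sym2 Pt), IsPolygon 1 P ∧ IsDiagram w P) ∧
    (∀ (P Q : Set (Sym2 Pt)) (v w : List Gen), IsPolygon 1 P → IsPolygon 1 Q → IsDiagram v P → IsDiagram w Q →
      (SameClass 1 P Q ↔ DiagEq v w)) ∧
    (∃ P Q : Set (Sym2 Pt), IsPolygon 1 P ∧ IsPolygon 1 Q ∧ SameKnotType P Q ∧ ¬ SameClass 1 P Q) :=
  ⟨fun _ hP => exists_diag hP, fun _ _ hP h => diag_valid hP h, fun _ h => realise h,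
    fun _ _ _ _ hP hQ hv hw => classes hP hQ hv hw,
    ⟨edgeSet polyP, edgeSet polyQ, isPolygon_P, isPolygon_Q, sameKnotType, not_sameClass⟩⟩

end Pool.Agent.Results.MP_dd2c10_pr.Classification
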