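import Mathlib
import Pool.Agent.Lib.MP_dd2c10_pr.Defs
import Pool.Agent.Lib.MP_dd2c10_pr.Example

/-!
# Knot type does not determine the ergodicity class of the BFACF algorithm in the slab of width one

There are two lattice polygons in the slab `0 ≤ z ≤ 1` which are ambient isotopic in space but
which cannot be joined by a finite sequence of elementary BFACF moves inside the slab.
-/

namespace Pool.Agent.Results.MP_dd2c10_pr.KnotTypeNotEnough

open Pool.Agent.Lib.MP_dd2c10_pr

theorem result : ∃ P Q : Set (Sym2 Pt), IsPolygon 1 P ∧ IsPolygon 1 Q ∧ SameKnotType P Q ∧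
    ¬ SameClass 1 P Q :=
  ⟨edgeSet polyP, edgeSet polyQ, isPolygon_P, isPolygon_Q, sameKnotType, not_sameClass⟩

end Pool.Agent.Results.MP_dd2c10_pr.KnotTypeNotEnough
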